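import Pool.Agent.H5.RPG.Stmts

/-!
# Row KIT of the board `rpg`: the set `K i g` as a greatest fixed point
-/

set_option autoImplicit false

namespace Pool.RPG

open Filter TMLib Pool.PG

theorem kit_getD (n : ℕ) (f : ℕ → Bool) (v : ℕ) :
    ((List.range n).map f).getD v false = true ↔ v < n ∧ f v = true := by
  by_cases hv : v < n
  · simp [List.getD, hv]
  · simp [List.getD, hv]

/-- A decreasing iteration on finite sets is constant after as many steps as the first set has
elements. -/
theorem kit_stab (n : ℕ) (Φ : Finset ℕ → Finset ℕ) (F : ℕ → Finset ℕ)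
    (hF : ∀ m, F (m + 1) = Φ (F m)) (hs : ∀ m, F (m + 1) ⊆ F m) (h0 : (F 0).card ≤ n) :
    F (n + 1) = F n := by
  by_contra hne
  have hne' : ∀ m ≤ n, F (m + 1) ≠ F m := by
    intro m hm he
    apply hne
    have hk : ∀ k, F (m + k + 1) = F (m + k) := by
      intro k
      induction k with
      | zero => exact he
      | succ k ih =>
        have e1 : F (m + (k + 1) + 1) = Φ (F (m + k + 1)) := hF (m + (k + 1))
        have e2 : F (m + (k + 1)) = Φ (F (m + k)) := hF (m + k)
        rw [e1, e2, ih]
    obtain ⟨k, rfl⟩ := Nat.exists_eq_add_of_le hm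
    exact hk k
  have hc : ∀ m ≤ n + 1, (F m).card + m ≤ n := by
    intro m
    induction m with
    | zero => intro _; simpa using h0
    | succ m ih =>
      intro hm
      have h1 := ih (by omega)
      have h2 : (F (m + 1)).card < (F m).card :=
        Finset.card_lt_card ((hs m).ssubset_of_ne (hne' m (by omega)))
      omega
  have := hc (n + 1) le_rfl
  omega

theorem kit_len (g : Game) (i : Bool) (m : ℕ) : ((kst g)^[m] (q0 i g)).length = g.length := by
  cases m with
  | zero => simp [q0]
  | succ m => rw [Function.iterate_succ_apply']; simp [kst]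

theorem kit_lt (g : Game) (i : Bool) (m v : ℕ)
    (h : ((kst g)^[m] (q0 i g)).getD v false = true) : v < g.length := by
  by_contra hv
  have : ((kst g)^[m] (q0 i g)).getD v false = false := by
    apply List.getD_eq_default
    rw [kit_len]
    omega
  rw [this] at h
  exact Bool.noConfusion h

theorem kit_zero (g : Game) (i : Bool) (v : ℕ) :
    ((kst g)^[0] (q0 i g)).getD v false = true ↔
      v < g.length ∧ own g v = i ∧ evb (pri g v) = i := by
  change (q0 i g).getD v false = true ↔ _
  unfold q0
  rw [kit_getD]
  simp

theorem kit_succ (g : Game) (i : Bool) (m v : ℕ) :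
    ((kst g)^[m + 1] (q0 i g)).getD v false = true ↔
      ((kst g)^[m] (q0 i g)).getD v false = true ∧
        ∃ w ∈ suc g v, ((kst g)^[m] (q0 i g)).getD w false = true := by
  rw [Function.iterate_succ_apply']
  conv_lhs => unfold kst
  rw [kit_getD]
  constructor
  · rintro ⟨_, h⟩
    rw [Bool.and_eq_true, List.any_eq_true] at h
    exact h
  · rintro ⟨h1, h2⟩
    refine ⟨kit_lt g i m v h1, ?_⟩
    rw [Bool.and_eq_true, List.any_eq_true]
    exact ⟨h1, h2⟩

theorem kit_thm : KITStmt := by
  classical
  intro g i
  refine ⟨kit_len g i g.length, ?_⟩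
  intro v
  change ((kst g)^[g.length] (q0 i g)).getD v false = true ↔ _
  constructor
  · intro hv
    -- the iteration is constant after `g.length` steps
    have hst := kit_stab g.length
      (fun T => (Finset.range g.length).filter fun u => u ∈ T ∧ ∃ w ∈ suc g u, w ∈ T)
      (fun m => (Finset.range g.length).filter fun u =>
        ((kst g)^[m] (q0 i g)).getD u false = true)
      (by
        intro m
        ext u
        simp only [Finset.mem_filter, Finset.mem_range]
        rw [kit_succ]
        constructor
        · rintro ⟨h1, h2, w, hw, h3⟩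
          exact ⟨h1, ⟨h1, h2⟩, w, hw, kit_lt g i m w h3, h3⟩
        · rintro ⟨h1, ⟨_, h2⟩, w, hw, _, h3⟩
          exact ⟨h1, h2, w, hw, h3⟩)
      (by
        intro m u hu
        simp only [Finset.mem_filter, Finset.mem_range] at hu ⊢
        exact ⟨hu.1, ((kit_succ g i m u).1 hu.2).1⟩)
      (by
        refine (Finset.card_filter_le _ _).trans ?_
        rw [Finset.card_range])
    have hup : ∀ u, ((kst g)^[g.length] (q0 i g)).getD u false = true →
        ((kst g)^[g.length + 1] (q0 i g)).getD u false = true := by
      intro u hu
      have hmem : u ∈ (Finset.range g.length).filter fun u =>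
          ((kst g)^[g.length] (q0 i g)).getD u false = true := by
        simp only [Finset.mem_filter, Finset.mem_range]
        exact ⟨kit_lt g i _ u hu, hu⟩
      have h2 : u ∈ (Finset.range g.length).filter fun u =>
          ((kst g)^[g.length + 1] (q0 i g)).getD u false = true := by
        rw [hst]
        exact hmem
      exact (Finset.mem_filter.1 h2).2
    have hdown : ∀ m u, ((kst g)^[m] (q0 i g)).getD u false = true →
        ((kst g)^[0] (q0 i g)).getD u false = true := by
      intro m
      induction m with
      | zero => intro u hu; exact hu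
      | succ m ih => intro u hu; exact ih u ((kit_succ g i m u).1 hu).1
    refine ⟨{u | ((kst g)^[g.length] (q0 i g)).getD u false = true}, hv, ?_⟩
    intro u hu
    have h0 := (kit_zero g i u).1 (hdown _ u hu)
    refine ⟨h0.1, h0.2.1, h0.2.2, ?_⟩
    obtain ⟨_, w, hw, h3⟩ := (kit_succ g i _ u).1 (hup u hu)
    exact ⟨w, hw, h3⟩
  · rintro ⟨S, hvS, hS⟩
    have hall : ∀ m, ∀ u ∈ S, ((kst g)^[m] (q0 i g)).getD u false = true := by
      intro m
      induction m with
      | zero =>
        intro u hu
        obtain ⟨h1, h2, h3, _⟩ := hS u hu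
        exact (kit_zero g i u).2 ⟨h1, h2, h3⟩
      | succ m ih =>
        intro u hu
        obtain ⟨_, _, _, w, hw, hwS⟩ := hS u hu
        exact (kit_succ g i m u).2 ⟨ih u hu, w, hw, ih w hwS⟩
    exact hall _ v hvS

end Pool.RPG
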